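import Mathlib

/-!
# MP_db9399: total colourings with `Δ + C` colours extending a precoloured distance-3 matching

Interface: definitions and the statement `Stmt_X` of every block. See `BLUEPRINT.md`.
-/

set_option autoImplicit false

namespace Pool.Agent.Work.MP_db9399_all

open Finset Classical

universe u v

/-! ## Graphs -/

section graphs
variable {V : Type u} [Fintype V]

/-- the neighbours of `v` -/
noncomputable def nb (G : SimpleGraph V) (v : V) : Finset V := univ.filter (fun w => G.Adj v w)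

/-- vertices of the block `j` (the blocks are named by vertices; `blk x = none` : sparse vertex) -/
noncomputable def bs (blk : V → Option V) (j : V) : Finset V := univ.filter (fun z => blk z = some j)

/-- the sparse vertices -/
noncomputable def ss (blk : V → Option V) : Finset V := univ.filter (fun z => blk z = none)

/-- ordered pairs of distinct nonadjacent elements of `A` -/
noncomputable def mis (G : SimpleGraph V) (A : Finset V) : Finset (V × V) :=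
  (A ×ˢ A).filter (fun p => p.1 ≠ p.2 ∧ ¬ G.Adj p.1 p.2)

/-- neighbours in blocks -/
noncomputable def dn (G : SimpleGraph V) (blk : V → Option V) (x : V) : Finset V :=
  (nb G x).filter (fun z => blk z ≠ none)

/-- sparse neighbours -/
noncomputable def sn (G : SimpleGraph V) (blk : V → Option V) (x : V) : Finset V :=
  (nb G x).filter (fun z => blk z = none)

/-- a sparse vertex with at least `Δ / 100` neighbours in blocks -/
def Sb (G : SimpleGraph V) (Δ : ℕ) (blk : V → Option V) (x : V) : Prop :=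
  blk x = none ∧ (Δ : ℝ) / 100 ≤ ((dn G blk x).card : ℝ)

/-- the neighbours of `x` of type `Sb` -/
noncomputable def sbn (G : SimpleGraph V) (Δ : ℕ) (blk : V → Option V) (x : V) : Finset V :=
  (nb G x).filter (fun z => Sb G Δ blk z)

/-- the almost-clique decomposition -/
structure IsDec (G : SimpleGraph V) (Δ : ℕ) (η θ : ℝ) (blk : V → Option V) : Prop where
  size : ∀ j, ((bs blk j).card : ℝ) ≤ (1 + θ) * Δ
  ext : ∀ j, ∀ z ∈ bs blk j, ((nb G z \ bs blk j).card : ℝ) ≤ 2 * η * Δ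
  out : ∀ j x, x ∉ bs blk j → ((nb G x ∩ bs blk j).card : ℝ) ≤ (1 - η / 2) * Δ
  edges : ∀ j, (∑ z ∈ bs blk j, ((nb G z \ bs blk j).card : ℝ)) ≤ 3 * θ * (Δ : ℝ) ^ 2
  sparse : ∀ x, blk x = none → ((nb G x).card : ℝ) ≤ (1 - θ ^ 2) * Δ ∨
    2 * θ ^ 2 * (Δ : ℝ) ^ 2 ≤ ((mis G (nb G x)).card : ℝ)

end graphs

/-- DEC: the decomposition exists. -/
def Stmt_DEC : Prop :=
  ∀ {V : Type u} [Fintype V] (G : SimpleGraph V) (Δ : ℕ) (η θ : ℝ), 0 < θ → θ ≤ η / 8 →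
    η ≤ 1 / 8 → θ ≤ 1 / 100 → 1 / θ ^ 2 ≤ (Δ : ℝ) → (∀ v, (nb G v).card ≤ Δ) →
    ∃ blk : V → Option V, IsDec G Δ η θ blk

/-- CLS: pairing of nonadjacent vertices of a block, at most `Δ + 1` classes. -/
def Stmt_CLS : Prop :=
  ∀ {V : Type u} [Fintype V] (G : SimpleGraph V) (Δ : ℕ) (D : Finset V), 1 ≤ Δ →
    (∀ v, (nb G v).card ≤ Δ) → (D.card : ℝ) ≤ (3 / 2) * Δ →
    ∃ idx : V → Fin (Δ + 1), (∀ s, (D.filter (fun z => idx z = s)).card ≤ 2) ∧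
      ∀ z ∈ D, ∀ z' ∈ D, z ≠ z' → idx z = idx z' → ¬ G.Adj z z'

/-- PAL: a palette avoiding the colours forbidden at many vertices of `D`. -/
def Stmt_PAL : Prop :=
  ∀ {V : Type u} [Fintype V] (D : Finset V) (n k h : ℕ) (δ : ℝ) (F : V → Finset ℕ), 0 < δ →
    (∀ x, (F x).card ≤ k) → (k : ℝ) * D.card ≤ δ * h →
    ∃ e : Fin n → ℕ, Function.Injective e ∧ (∀ a, e a < n + h) ∧
      ∀ a, ((D.filter (fun z => e a ∈ F z)).card : ℝ) ≤ δ

/-! ## Finite probability, local lemmas -/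

/-- uniform probability on a finite type -/
noncomputable def pr {Ω : Type u} [Fintype Ω] (E : Ω → Prop) : ℝ :=
  ((univ.filter E).card : ℝ) / (Fintype.card Ω : ℝ)

/-- AL: lopsided weighted local lemma, counting form. -/
def Stmt_AL : Prop :=
  ∀ (Ω : Type u) [Fintype Ω] [Nonempty Ω] (ι : Type v) [Fintype ι] (E : ι → Ω → Prop)
    (adj : ι → ι → Prop) (p x : ι → ℝ), (∀ i, 0 ≤ x i) → (∀ i, x i ≤ 1 / 2) →
    (∀ i (S : Finset ι), (∀ k ∈ S, ¬ adj i k) →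
      ((univ.filter (fun ω => E i ω ∧ ∀ k ∈ S, ¬ E k ω)).card : ℝ) ≤
        p i * ((univ.filter (fun ω => ∀ k ∈ S, ¬ E k ω)).card : ℝ)) →
    (∀ i, p i * Real.exp (2 * ∑ k ∈ univ.filter (fun k => adj i k), x k) ≤ x i) →
    ∃ ω, ∀ i, ¬ E i ω

section perm
variable {J : Type u} {n : ℕ}

/-- configurations: one permutation for every block -/
abbrev Cfg (J : Type u) (n : ℕ) := J → Equiv.Perm (Fin n)

/-- the canonical event given by the atoms `(block, class, colour)` of `A` -/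
def Holds (ω : Cfg J n) (A : Finset (J × Fin n × Fin n)) : Prop :=
  ∀ α ∈ A, ω α.1 α.2.1 = α.2.2

/-- `A` touches the atom `(j, s, a)`: an atom of `A` in block `j` with the same class or the same
colour -/
def Touch (A : Finset (J × Fin n × Fin n)) (j : J) (s a : Fin n) : Prop :=
  ∃ β ∈ A, β.1 = j ∧ (β.2.1 = s ∨ β.2.2 = a)

/-- `f` depends only on the values of the configuration at the positions in `Q` -/
def DepOn {β : Type v} (Q : Finset (J × Fin n)) (f : Cfg J n → β) : Prop :=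
  ∀ ω ω' : Cfg J n, (∀ p ∈ Q, ω p.1 p.2 = ω' p.1 p.2) → f ω = f ω'

/-- the colour of a position; `e j` embeds the inner colours of block `j` into the palette -/
def col (e : J → Fin n → ℕ) (ω : Cfg J n) (p : J × Fin n) : ℕ := e p.1 (ω p.1 p.2)

/-- the set of colours of a set of positions -/
noncomputable def cs (e : J → Fin n → ℕ) (ω : Cfg J n) (Y : Finset (J × Fin n)) : Finset ℕ :=
  Y.image (col e ω)

/-- a package of events with scopes in the blocks `Bl` and total weight at most `W`, the avoidance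
of which implies `P` -/
def Pack [Fintype J] (T : J → Fin n → ℝ) (Bl : Finset J) (W : ℝ) (P : Cfg J n → Prop) : Prop :=
  ∃ (κ : Type u) (_ : Fintype κ) (Q : κ → Finset (J × Fin n)) (E : κ → Cfg J n → Prop),
    (∀ k, DepOn (Q k) (E k)) ∧ (∀ k, (Q k).Nonempty) ∧ (∀ k, ∀ p ∈ Q k, p.1 ∈ Bl) ∧
    (∑ k, pr (E k) * Real.exp (2 * ∑ p ∈ Q k, T p.1 p.2) ≤ W) ∧
    ∀ ω, (∀ k, ¬ E k ω) → P ω

end perm

/-- LOP: lopsided lemma for independent random permutations. -/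
def Stmt_LOP : Prop :=
  ∀ (J : Type u) [Fintype J] (n : ℕ) (A : Finset (J × Fin n × Fin n))
    (S : Finset (Finset (J × Fin n × Fin n))),
    (∀ B ∈ S, ∀ α ∈ A, ¬ Touch B α.1 α.2.1 α.2.2) →
    ((univ.filter (fun ω : Cfg J n => Holds ω A ∧ ∀ B ∈ S, ¬ Holds ω B)).card : ℝ) ≤
      pr (fun ω : Cfg J n => Holds ω A) *
        ((univ.filter (fun ω : Cfg J n => ∀ B ∈ S, ¬ Holds ω B)).card : ℝ)

/-- LLLK: weighted local lemma for random permutations, canonical events and packages. -/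
def Stmt_LLLK : Prop :=
  ∀ (J : Type u) [Fintype J] (n : ℕ) (ι : Type u) [Fintype ι] (R : Type u) [Fintype R]
    (B : ι → Finset (J × Fin n × Fin n)) (T : J → Fin n → ℝ) (Bl : R → Finset J) (W : R → ℝ)
    (P : R → Cfg J n → Prop),
    (∀ i, (B i).Nonempty) → (∀ j s, 0 ≤ T j s) → (∀ j s, T j s ≤ 1 / 4) →
    (∀ r, Pack T (Bl r) (W r) (P r)) →
    (∀ j s a,
      ∑ i ∈ univ.filter (fun i => Touch (B i) j s a),
        pr (fun ω : Cfg J n => Holds ω (B i)) * Real.exp (2 * ∑ β ∈ B i, T β.1 β.2.1) +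
      ∑ r ∈ univ.filter (fun r => j ∈ Bl r), W r ≤ T j s) →
    ∃ ω : Cfg J n, (∀ i, ¬ Holds ω (B i)) ∧ ∀ r, P r ω

/-- EXPO: exposure of one more position. -/
def Stmt_EXPO : Prop :=
  ∀ (J : Type u) [Fintype J] (n : ℕ) (Q : Finset (J × Fin n)) (A : Cfg J n → Prop)
    (R : Cfg J n → Finset (Fin n)) (j : J) (s : Fin n) (r : ℕ), DepOn Q A → DepOn Q R →
    (j, s) ∉ Q →
    (∀ ω, A ω → ((R ω).filter (fun b => ∀ p ∈ Q, p.1 = j → ω j p.2 ≠ b)).card ≤ r) →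
    ((n : ℝ) - ((Q.filter (fun p => p.1 = j)).card : ℝ)) * pr (fun ω => A ω ∧ ω j s ∈ R ω) ≤
      (r : ℝ) * pr A

/-- PRC: probability of a canonical event. -/
def Stmt_PRC : Prop :=
  ∀ (J : Type u) [Fintype J] (n : ℕ) (B : Finset (J × Fin n × Fin n)), B.card ≤ n →
    pr (fun ω : Cfg J n => Holds ω B) ≤ (1 / ((n : ℝ) - B.card + 1)) ^ B.card

/-- PRD: two atoms in different blocks. -/
def Stmt_PRD : Prop :=
  ∀ (J : Type u) [Fintype J] (n : ℕ) (β β' : J × Fin n × Fin n), β.1 ≠ β'.1 →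
    pr (fun ω : Cfg J n => Holds ω {β, β'}) ≤ 1 / (n : ℝ) ^ 2

/-- PE1: many coincidences along a map `g`. -/
def Stmt_PE1 : Prop :=
  ∀ (J : Type u) [Fintype J] (n : ℕ) (e : J → Fin n → ℕ) (M : Finset (J × Fin n))
    (g : J × Fin n → J × Fin n), (∀ j, Function.Injective (e j)) → (∀ p ∈ M, g p ∉ M) →
    2 * M.card < n →
    pr (fun ω : Cfg J n => ∀ p ∈ M, col e ω p = col e ω (g p)) ≤
      (1 / ((n : ℝ) - 2 * M.card)) ^ M.card

/-- PE3: few coincidences between `Y` and `Z` (no common block) are unlikely. -/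
def Stmt_PE3 : Prop :=
  ∀ (J : Type u) [Fintype J] (n h : ℕ) (e : J → Fin n → ℕ) (Y Z : Finset (J × Fin n))
    (g r : ℕ), (∀ j, Function.Injective (e j)) → (∀ j a, e j a < n + h) →
    (∀ p ∈ Y, ∀ q ∈ Z, p.1 ≠ q.1) → r ≤ n →
    pr (fun ω : Cfg J n => r + h ≤ (cs e ω Y).card ∧
      (Z.filter (fun p => col e ω p ∈ cs e ω Y)).card < g) ≤
      2 ^ g * (1 - (r : ℝ) / (2 * n)) ^ Z.card

/-- PE2: it is unlikely that the colours of `Y` cover almost all colours of `Z` (`Z` in one block,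
`Y` in other blocks). -/
def Stmt_PE2 : Prop :=
  ∀ (J : Type u) [Fintype J] (n : ℕ) (e : J → Fin n → ℕ) (i : J) (Z Y : Finset (J × Fin n))
    (g : ℕ), (∀ j, Function.Injective (e j)) → (∀ p ∈ Z, p.1 = i) → (∀ p ∈ Y, p.1 ≠ i) →
    pr (fun ω : Cfg J n => (cs e ω Z \ cs e ω Y).card < g) ≤
      2 ^ g * (1 - (∏ j, (1 - ((Y.filter (fun p => p.1 = j)).card : ℝ) / n)) / 2) ^ Z.card

/-! ## The dense phase -/

/-- data of the dense phase -/
structure DCtx (V : Type u) [Fintype V] where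
  G : SimpleGraph V
  Δ : ℕ
  blk : V → Option V
  idx : V → Fin (Δ + 1)
  h : ℕ
  e : V → Fin (Δ + 1) → ℕ
  deg : ∀ v, (nb G v).card ≤ Δ
  dec : IsDec G Δ (1 / 10 ^ 6) (1 / 10 ^ 13) blk
  cls2 : ∀ j s, ((bs blk j).filter (fun z => idx z = s)).card ≤ 2
  clsind : ∀ j, ∀ z ∈ bs blk j, ∀ z' ∈ bs blk j, z ≠ z' → idx z = idx z' → ¬ G.Adj z z'
  einj : ∀ j, Function.Injective (e j)
  elt : ∀ j a, e j a < Δ + 1 + h

namespace DCtx
variable {V : Type u} [Fintype V] (X : DCtx V)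

/-- the position (block, class) of a vertex of a block -/
noncomputable def pos (z : V) : V × Fin (X.Δ + 1) := ((X.blk z).getD z, X.idx z)

/-- the positions touched by the neighbourhood of `x` -/
noncomputable def tch (x : V) : Finset (V × Fin (X.Δ + 1)) := (dn X.G X.blk x).image X.pos

/-- the blocks touched by the neighbourhood of `x` -/
noncomputable def tb (x : V) : Finset V := (X.tch x).image Prod.fst

/-- outer degree of a class -/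
noncomputable def ex (j : V) (s : Fin (X.Δ + 1)) : ℝ :=
  ∑ z ∈ (bs X.blk j).filter (fun z => X.idx z = s), ((nb X.G z \ bs X.blk j).card : ℝ)

/-- the weights for the local lemma -/
noncomputable def T (j : V) (s : Fin (X.Δ + 1)) : ℝ := 3 * X.ex j s / (X.Δ + 1) + 1 / 10 ^ 12

/-- the colour of a vertex of a block -/
noncomputable def vc (ω : Cfg V (X.Δ + 1)) (z : V) : ℕ := col X.e ω (X.pos z)

end DCtx

/-- DSM: the small events (conflicts, forbidden colours, rejects) and their weights. -/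
def Stmt_DSM : Prop :=
  ∀ k : ℕ, ∃ Δ0 : ℕ, ∀ {V : Type u} [Fintype V] (X : DCtx V) (t : V → V → ℕ)
    (F : V → Finset ℕ), Δ0 ≤ X.Δ → (∀ v w, t v w = t w v) →
    (∀ v, Set.InjOn (t v) (nb X.G v : Set V)) → (∀ v, (F v).card ≤ k) →
    (∀ j a, (((bs X.blk j).filter (fun z => X.e j a ∈ F z)).card : ℝ) ≤ X.Δ / 10 ^ 13) →
    ∃ (ι : Type u) (_ : Fintype ι) (B : ι → Finset (V × Fin (X.Δ + 1) × Fin (X.Δ + 1))),
      (∀ i, (B i).Nonempty) ∧
      (∀ j s a, ∑ i ∈ univ.filter (fun i => Touch (B i) j s a),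
        pr (fun ω : Cfg V (X.Δ + 1) => Holds ω (B i)) *
          Real.exp (2 * ∑ β ∈ B i, X.T β.1 β.2.1) ≤ X.T j s - 1 / 10 ^ 13) ∧
      ∀ ω : Cfg V (X.Δ + 1), (∀ i, ¬ Holds ω (B i)) →
        (∀ z z', X.blk z ≠ none → X.blk z' ≠ none → X.G.Adj z z' → X.vc ω z ≠ X.vc ω z') ∧
        (∀ z, X.blk z ≠ none → X.vc ω z ∉ F z) ∧
        (∀ v, ((dn X.G X.blk v).filter (fun x => X.vc ω x = t v x)).card ≤ 20)

/-- DE3: repeated colours in `N(x)` when the block neighbours of `x` are not concentrated in one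
block. -/
def Stmt_DE3 : Prop :=
  ∀ h : ℕ, ∃ Δ0 : ℕ, ∀ {V : Type u} [Fintype V] (X : DCtx V) (x : V), X.h = h → Δ0 ≤ X.Δ →
    X.blk x = none → (X.Δ : ℝ) / 100 ≤ ((dn X.G X.blk x).card : ℝ) →
    (∀ i, ((nb X.G x ∩ bs X.blk i).card : ℝ) + X.Δ / (8 * 10 ^ 6) ≤
      ((dn X.G X.blk x).card : ℝ)) →
    Pack X.T (X.tb x) (Real.exp (-(X.Δ : ℝ) / 10 ^ 28)) (fun ω =>
      (((dn X.G X.blk x).image (X.vc ω)).card : ℝ) + X.Δ / 10 ^ 29 ≤
        ((dn X.G X.blk x).card : ℝ))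

/-- DEB: free colours of `N(x)` at `w` when the block neighbours of `x` are concentrated in the
block `i`. -/
def Stmt_DEB : Prop :=
  ∃ Δ0 : ℕ, ∀ {V : Type u} [Fintype V] (X : DCtx V) (x w i : V), Δ0 ≤ X.Δ →
    X.blk x = none → X.blk w = none →
    (X.Δ : ℝ) / 200 ≤ ((nb X.G x ∩ bs X.blk i).card : ℝ) →
    ((nb X.G w ∩ bs X.blk i).card : ℝ) ≤ X.Δ / 1000 →
    Pack X.T (X.tb x ∪ X.tb w) (Real.exp (-(X.Δ : ℝ) / 10 ^ 28)) (fun ω =>
      (X.Δ : ℝ) / 10 ^ 29 ≤ ((((dn X.G X.blk x).image (X.vc ω)) \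
        ((dn X.G X.blk w).image (X.vc ω))).card : ℝ))

/-- DES: the same when `w` has few block neighbours. -/
def Stmt_DES : Prop :=
  ∃ Δ0 : ℕ, ∀ {V : Type u} [Fintype V] (X : DCtx V) (x w : V), Δ0 ≤ X.Δ →
    X.blk x = none → X.blk w = none →
    ((dn X.G X.blk w).card : ℝ) < X.Δ / 100 →
    (X.Δ : ℝ) / (16 * 10 ^ 26) ≤ ((X.tch x \ X.tch w).card : ℝ) →
    Pack X.T (X.tb x ∪ X.tb w) (Real.exp (-(X.Δ : ℝ) / 10 ^ 28)) (fun ω =>
      ((((dn X.G X.blk x).image (X.vc ω)).card : ℝ) + X.Δ / 10 ^ 29 ≤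
        ((dn X.G X.blk x).card : ℝ)) ∨
      (X.Δ : ℝ) / 10 ^ 29 ≤ ((((dn X.G X.blk x).image (X.vc ω)) \
        ((dn X.G X.blk w).image (X.vc ω))).card : ℝ))

section propP
variable {V : Type u} [Fintype V]

/-- the outcome of the dense phase around the sparse vertices -/
def PropP (G : SimpleGraph V) (Δ : ℕ) (blk : V → Option V) (c : V → ℕ) : Prop :=
  ∀ x, blk x = none → (1 - 1 / 10 ^ 26) * (Δ : ℝ) < ((nb G x).card : ℝ) →
    (Sb G Δ blk x ∨ ((Δ : ℝ) / (4 * 10 ^ 26) ≤ ((dn G blk x).card : ℝ) ∧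
      ((sbn G Δ blk x).card : ℝ) < Δ / (8 * 10 ^ 26))) →
    ((((dn G blk x).image c).card : ℝ) + Δ / 10 ^ 29 ≤ ((dn G blk x).card : ℝ)) ∨
    ((Δ : ℝ) / 10 ^ 29 ≤ (((sn G blk x).filter (fun w =>
      (Δ : ℝ) / 10 ^ 29 ≤ ((((dn G blk x).image c) \ ((dn G blk w).image c)).card : ℝ))).card
        : ℝ))

end propP

/-- DPH: the dense phase. -/
def Stmt_DPH : Prop :=
  ∀ k h : ℕ, ∃ Δ0 : ℕ, ∀ {V : Type u} [Fintype V] (X : DCtx V) (t : V → V → ℕ)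
    (F : V → Finset ℕ), X.h = h → Δ0 ≤ X.Δ → (∀ v w, t v w = t w v) →
    (∀ v, Set.InjOn (t v) (nb X.G v : Set V)) → (∀ v, (F v).card ≤ k) →
    (∀ j a, (((bs X.blk j).filter (fun z => X.e j a ∈ F z)).card : ℝ) ≤ X.Δ / 10 ^ 13) →
    ∃ c : V → ℕ, (∀ z, X.blk z ≠ none → c z < X.Δ + 1 + h) ∧
      (∀ z z', X.blk z ≠ none → X.blk z' ≠ none → X.G.Adj z z' → c z ≠ c z') ∧
      (∀ z, X.blk z ≠ none → c z ∉ F z) ∧
      (∀ v, ((dn X.G X.blk v).filter (fun x => c x = t v x)).card ≤ 20) ∧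
      PropP X.G X.Δ X.blk c

/-! ## Rounds on the sparse vertices -/

section prod
variable {J : Type u} {M : ℕ}

/-- `A` depends only on the coordinates in `Q` -/
def DepOnI {β : Type v} (Q : Finset J) (A : (J → Fin M) → β) : Prop :=
  ∀ f f' : J → Fin M, (∀ y ∈ Q, f y = f' y) → A f = A f'

/-- package of events, product space -/
def PackI [Fintype J] (T : ℝ) (Sc : Finset J) (W : ℝ) (P : (J → Fin M) → Prop) : Prop :=
  ∃ (κ : Type u) (_ : Fintype κ) (Q : κ → Finset J) (E : κ → (J → Fin M) → Prop),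
    (∀ k, DepOnI (Q k) (E k)) ∧ (∀ k, (Q k).Nonempty) ∧ (∀ k, Q k ⊆ Sc) ∧
    (∑ k, pr (E k) * Real.exp (2 * T * ((Q k).card : ℝ)) ≤ W) ∧
    ∀ f, (∀ k, ¬ E k f) → P f

end prod

/-- LLLI: weighted local lemma in a product space, for packages. -/
def Stmt_LLLI : Prop :=
  ∀ (J : Type u) [Fintype J] (M : ℕ) (R : Type u) [Fintype R] (T : ℝ) (Sc : R → Finset J)
    (W : R → ℝ) (P : R → (J → Fin M) → Prop), 0 < M → 0 ≤ T → T ≤ 1 / 4 →
    (∀ r, PackI T (Sc r) (W r) (P r)) →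
    (∀ y, ∑ r ∈ univ.filter (fun r => y ∈ Sc r), W r ≤ T) →
    ∃ f : J → Fin M, ∀ r, P r f

/-- RNH: few hits are unlikely. -/
def Stmt_RNH : Prop :=
  ∀ (J : Type u) [Fintype J] (M : ℕ) (A : Finset J) (B : J → Finset (Fin M)) (s : ℝ),
    0 < M → 0 ≤ s → s ≤ 1 → (∀ y ∈ A, s * M ≤ ((B y).card : ℝ)) →
    pr (fun f : J → Fin M => ((A.filter (fun y => f y ∈ B y)).card : ℝ) < s / 2 * A.card) ≤
      Real.exp (-(3 / 20) * s * A.card)

/-- RNK: total probability of the killing patterns on `A`. -/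
def Stmt_RNK : Prop :=
  ∀ (J : Type u) [Fintype J] (N q : ℕ) (A : Finset J) (Kl : J → Finset J) (D : ℕ),
    0 < N → 2 ≤ q → (∀ y ∈ A, (Kl y).card ≤ 3 * D) → (q : ℝ) * A.card ≤ D →
    ∑ g ∈ Fintype.piFinset (fun y : J => if y ∈ A then Kl y \ A else {y}),
      pr (fun f : J → Fin (q * N) => ∀ y ∈ A, f (g y) = f y ∧ (f y : ℕ) < N) ≤
      (4 * (D : ℝ) / q) ^ A.card * (1 / ((q : ℝ) * N)) ^ A.card

/-- RND: one random round. -/
def Stmt_RND : Prop :=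
  ∀ om m : ℝ, 0 < om → om ≤ 1 → 0 < m → ∃ (q : ℕ) (κ : ℝ) (Δ0 : ℕ), 2 ≤ q ∧ 0 < κ ∧
    ∀ {V : Type u} [Fintype V] (G : SimpleGraph V) (Δ N : ℕ) (t : V → V → ℕ) (Dm : Type u)
      [Fintype Dm] (Md : Dm → Finset V) (B : Dm → V → Finset ℕ) (Kl : Dm → V → Finset V),
      Δ0 ≤ Δ → Δ ≤ N → N ≤ 2 * Δ → (∀ v, (nb G v).card ≤ Δ) →
      (∀ d, m * Δ ≤ ((Md d).card : ℝ)) → (∀ d, (Md d).card ≤ Δ) →
      (∀ d, ∀ y ∈ Md d, B d y ⊆ range (q * N) ∧ om * N ≤ ((B d y).card : ℝ)) →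
      (∀ d, ∀ y ∈ Md d, (Kl d y).card ≤ 3 * Δ ∧ y ∉ Kl d y) →
      (∀ w, (univ.filter (fun d => w ∈ Md d ∨ ∃ y ∈ Md d, w ∈ Kl d y)).card ≤ Δ ^ 4) →
      ∃ f : V → ℕ, (∀ v, f v < q * N) ∧
        (∀ v, ((nb G v).filter (fun x => f x = t v x)).card ≤ 1) ∧
        ∀ d, κ * ((Md d).card : ℝ) ≤ (((Md d).filter (fun y => f y ∈ B d y ∧
          ∀ w ∈ Kl d y, f w = f y → N ≤ f y)).card : ℝ)

section state
variable {V : Type u} [Fintype V]

/-- `c` is a proper colouring, avoiding `F`, of the vertices outside `U` -/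
structure PSt (G : SimpleGraph V) (N : ℕ) (F : V → Finset ℕ) (c : V → ℕ) (U : Finset V) :
    Prop where
  lt : ∀ x, x ∉ U → c x < N
  fb : ∀ x, x ∉ U → c x ∉ F x
  pc : ∀ x y, x ∉ U → y ∉ U → G.Adj x y → c x ≠ c y

/-- the available colours -/
noncomputable def av (G : SimpleGraph V) (N : ℕ) (F : V → Finset ℕ) (c : V → ℕ) (U : Finset V)
    (x : V) : Finset ℕ := (range N \ F x) \ (nb G x \ U).image c

end state

/-- STEP: one round as an extension of a partial colouring. -/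
def Stmt_STEP : Prop :=
  ∀ om m : ℝ, 0 < om → om ≤ 1 → 0 < m → ∃ (κ : ℝ) (Δ0 : ℕ), 0 < κ ∧
    ∀ {V : Type u} [Fintype V] (G : SimpleGraph V) (Δ N : ℕ) (t : V → V → ℕ)
      (F : V → Finset ℕ) (c : V → ℕ) (U : Finset V) (Da Di : Type u) [Fintype Da] [Fintype Di]
      (Ma : Da → Finset V) (B : Da → V → Finset ℕ) (Kl : Da → V → Finset V)
      (Mi : Di → Finset V),
      Δ0 ≤ Δ → Δ ≤ N → N ≤ 2 * Δ → (∀ v, (nb G v).card ≤ Δ) → PSt G N F c U →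
      (∀ d, m * Δ ≤ ((Ma d).card : ℝ) ∧ (Ma d).card ≤ Δ ∧ Ma d ⊆ U) →
      (∀ d, m * Δ ≤ ((Mi d).card : ℝ) ∧ (Mi d).card ≤ Δ ∧ Mi d ⊆ U) →
      (∀ d, ∀ y ∈ Ma d, B d y ⊆ av G N F c U y ∧ om * N ≤ ((B d y).card : ℝ)) →
      (∀ d, ∀ y ∈ Ma d, nb G y ∩ U ⊆ Kl d y ∧ (Kl d y).card ≤ 3 * Δ ∧ y ∉ Kl d y) →
      (∀ w, (univ.filter (fun d => w ∈ Ma d ∨ ∃ y ∈ Ma d, w ∈ Kl d y)).card +
        (univ.filter (fun d => w ∈ Mi d)).card ≤ Δ ^ 4) →
      ∃ (c' : V → ℕ) (U' : Finset V), U' ⊆ U ∧ (∀ x, x ∉ U → c' x = c x) ∧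
        PSt G N F c' U' ∧
        (∀ v, ((nb G v).filter (fun x => x ∈ U ∧ x ∉ U' ∧ c' x = t v x)).card ≤ 1) ∧
        (∀ d, κ * ((Ma d).card : ℝ) ≤ (((Ma d).filter (fun y => y ∉ U' ∧ c' y ∈ B d y ∧
          ∀ w ∈ Kl d y, w ∈ U → w ∉ U' → c' w ≠ c' y)).card : ℝ)) ∧
        ∀ d, κ * ((Mi d).card : ℝ) ≤ (((Mi d ∩ U').card : ℝ))

section rounds
variable {V : Type u} [Fintype V]

/-- the state after the first round -/
structure AfterOne (G : SimpleGraph V) (Δ N : ℕ) (F : V → Finset ℕ) (blk : V → Option V)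
    (γ : ℝ) (c : V → ℕ) (U : Finset V) : Prop where
  q1 : ∀ x, blk x = none → (1 - 1 / 10 ^ 26) * (Δ : ℝ) < ((nb G x).card : ℝ) →
    (Sb G Δ blk x ∨ ((Δ : ℝ) / (4 * 10 ^ 26) ≤ ((dn G blk x).card : ℝ) ∧
      ((sbn G Δ blk x).card : ℝ) < Δ / (8 * 10 ^ 26))) →
    (((nb G x \ U).image c).card : ℝ) + ((nb G x ∩ U).card : ℝ) + γ * Δ ≤ Δ
  q2 : ∀ x, blk x = none → ¬ Sb G Δ blk x →
    (Δ : ℝ) / (8 * 10 ^ 26) ≤ ((sbn G Δ blk x).card : ℝ) →
    γ * Δ ≤ ((sbn G Δ blk x ∩ U).card : ℝ)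
  q3 : ∀ x, blk x = none → (1 - 1 / 10 ^ 26) * (Δ : ℝ) < ((nb G x).card : ℝ) →
    ¬ Sb G Δ blk x → ((dn G blk x).card : ℝ) < Δ / (4 * 10 ^ 26) →
    ((sbn G Δ blk x).card : ℝ) < Δ / (8 * 10 ^ 26) →
    γ * Δ ≤ (((nb G x ∩ U).filter (fun b =>
      γ * Δ ≤ ((av G N F c U b ∩ (nb G x \ U).image c).card : ℝ))).card : ℝ)

/-- the surplus after the second round -/
def AfterTwo (G : SimpleGraph V) (Δ : ℕ) (P : V → Prop) (γ : ℝ) (c : V → ℕ) (U : Finset V) :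
    Prop :=
  ∀ x ∈ U, (P x → (((nb G x \ U).image c).card : ℝ) + ((nb G x ∩ U).card : ℝ) + γ * Δ ≤ Δ) ∧
    (¬ P x → (((nb G x \ U).image c).card : ℝ) +
      (((nb G x ∩ U).filter (fun y => ¬ P y)).card : ℝ) + γ * Δ ≤ Δ)

end rounds

/-- SP1: first round. -/
def Stmt_SP1 : Prop :=
  ∃ γ : ℝ, 0 < γ ∧ ∀ k h : ℕ, ∃ Δ0 : ℕ, ∀ {V : Type u} [Fintype V] (G : SimpleGraph V)
    (Δ N : ℕ) (t : V → V → ℕ) (F : V → Finset ℕ) (blk : V → Option V) (c : V → ℕ),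
    Δ0 ≤ Δ → Δ + k + 1 ≤ N → N ≤ Δ + h → (∀ v, (nb G v).card ≤ Δ) →
    (∀ v, (F v).card ≤ k) → IsDec G Δ (1 / 10 ^ 6) (1 / 10 ^ 13) blk →
    PSt G N F c (ss blk) → PropP G Δ blk c →
    ∃ (c' : V → ℕ) (U : Finset V), U ⊆ ss blk ∧ (∀ x, x ∉ ss blk → c' x = c x) ∧
      PSt G N F c' U ∧
      (∀ v, ((nb G v).filter (fun x => x ∈ ss blk ∧ x ∉ U ∧ c' x = t v x)).card ≤ 1) ∧
      AfterOne G Δ N F blk γ c' U

/-- SP2: second round. -/
def Stmt_SP2 : Prop :=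
  ∀ γ : ℝ, 0 < γ → ∃ γ' : ℝ, 0 < γ' ∧ ∀ k h : ℕ, ∃ Δ0 : ℕ, ∀ {V : Type u} [Fintype V]
    (G : SimpleGraph V) (Δ N : ℕ) (t : V → V → ℕ) (F : V → Finset ℕ) (blk : V → Option V)
    (c : V → ℕ) (U : Finset V),
    Δ0 ≤ Δ → Δ + k + 1 ≤ N → N ≤ Δ + h → (∀ v, (nb G v).card ≤ Δ) →
    (∀ v, (F v).card ≤ k) → U ⊆ ss blk → PSt G N F c U → AfterOne G Δ N F blk γ c U →
    ∃ (c' : V → ℕ) (U' : Finset V), U' ⊆ U ∧ (∀ x, x ∉ U → c' x = c x) ∧
      PSt G N F c' U' ∧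
      (∀ v, ((nb G v).filter (fun x => x ∈ U ∧ x ∉ U' ∧ c' x = t v x)).card ≤ 1) ∧
      AfterTwo G Δ (Sb G Δ blk) γ' c' U'

/-- CNT: the counting lemma. -/
def Stmt_CNT : Prop :=
  ∀ γ : ℝ, 0 < γ → ∃ K : ℕ, ∀ {V : Type u} [Fintype V] (G : SimpleGraph V) (Δ : ℕ)
    (t : V → V → ℕ) (U : Finset V) (L : V → Finset ℕ), 1 ≤ Δ → (∀ v, (nb G v).card ≤ Δ) →
    (∀ x ∈ U, ((nb G x ∩ U).card : ℝ) + γ * Δ ≤ ((L x).card : ℝ)) →
    ∃ c : V → ℕ, (∀ x ∈ U, c x ∈ L x) ∧ (∀ x ∈ U, ∀ y ∈ U, G.Adj x y → c x ≠ c y) ∧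
      ∀ v, ((nb G v ∩ U).filter (fun x => c x = t v x)).card ≤ K

/-- SP3: the two counting stages. -/
def Stmt_SP3 : Prop :=
  ∀ γ : ℝ, 0 < γ → ∃ K : ℕ, ∀ {V : Type u} [Fintype V] (G : SimpleGraph V) (Δ N k : ℕ)
    (t : V → V → ℕ) (F : V → Finset ℕ) (P : V → Prop) (c : V → ℕ) (U : Finset V), 1 ≤ Δ →
    Δ + k + 1 ≤ N → (∀ v, (nb G v).card ≤ Δ) → (∀ v, (F v).card ≤ k) → PSt G N F c U →
    AfterTwo G Δ P γ c U →
    ∃ c' : V → ℕ, (∀ x, x ∉ U → c' x = c x) ∧ PSt G N F c' ∅ ∧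
      ∀ v, ((nb G v ∩ U).filter (fun x => c' x = t v x)).card ≤ K

/-- MVT: the vertex colouring theorem. -/
def Stmt_MVT : Prop :=
  ∀ k : ℕ, ∃ C K : ℕ, ∀ {V : Type u} [Fintype V] (G : SimpleGraph V) (Δ : ℕ)
    (t : V → V → ℕ) (F : V → Finset ℕ), (∀ v, (nb G v).card ≤ Δ) →
    (∀ v w, t v w = t w v) → (∀ v, Set.InjOn (t v) (nb G v : Set V)) →
    (∀ v, (F v).card ≤ k) →
    ∃ c : V → ℕ, (∀ v, c v < Δ + C) ∧ (∀ v w, G.Adj v w → c v ≠ c w) ∧ (∀ v, c v ∉ F v) ∧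
      ∀ v, ((nb G v).filter (fun x => c x = t v x)).card ≤ K

/-- VIZ: Vizing's theorem. -/
def Stmt_VIZ : Prop :=
  ∀ {V : Type u} [Fintype V] (G : SimpleGraph V) (Δ : ℕ), (∀ v, (nb G v).card ≤ Δ) →
    ∃ t : V → V → ℕ, (∀ v w, t v w = t w v) ∧ (∀ v w, t v w < Δ + 1) ∧
      ∀ v, Set.InjOn (t v) (nb G v : Set V)

/-- GRE: greedy edge colouring with forbidden colours. -/
def Stmt_GRE : Prop :=
  ∀ {V : Type u} [Fintype V] (R : SimpleGraph V) (r m N : ℕ) (f : V → V → Finset ℕ),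
    (∀ v, (nb R v).card ≤ r) → (∀ v w, f v w = f w v) → (∀ v w, (f v w).card ≤ m) →
    ∃ t : V → V → ℕ, (∀ v w, t v w = t w v) ∧
      (∀ v w, R.Adj v w → N ≤ t v w ∧ t v w < N + 2 * r + m ∧ t v w ∉ f v w) ∧
      ∀ v, Set.InjOn (t v) (nb R v : Set V)

end Pool.Agent.Work.MP_db9399_all
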