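import Pool.Agent.Work.MP_db9399_all.Interface

set_option autoImplicit false

namespace Pool.Agent.Work.MP_db9399_all

open Finset Classical

universe u

section
variable {V : Type u} [Fintype V]

lemma mvt_mem_bs {blk : V → Option V} {j z : V} : z ∈ bs blk j ↔ blk z = some j := by
  simp [bs]

lemma mvt_mem_ss {blk : V → Option V} {z : V} : z ∈ ss blk ↔ blk z = none := by
  simp [ss]

lemma mvt_mem_nb {G : SimpleGraph V} {v w : V} : w ∈ nb G v ↔ G.Adj v w := by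
  simp [nb]

/-- small degrees -/
lemma mvt_small (hCNT : Stmt_CNT.{u}) (Δ0 : ℕ) (k : ℕ) : ∃ K : ℕ,
    ∀ {V : Type u} [Fintype V] (G : SimpleGraph V) (Δ : ℕ)
    (t : V → V → ℕ) (F : V → Finset ℕ), Δ ≤ Δ0 → (∀ v, (nb G v).card ≤ Δ) →
    (∀ v, (F v).card ≤ k) →
    ∃ c : V → ℕ, (∀ v, c v < Δ + k + 1) ∧ (∀ v w, G.Adj v w → c v ≠ c w) ∧
      (∀ v, c v ∉ F v) ∧ ∀ v, ((nb G v).filter (fun x => c x = t v x)).card ≤ K := by
  obtain ⟨K, hK⟩ := hCNT (1 / ((Δ0 : ℝ) + 1)) (by positivity)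
  refine ⟨K, fun {V} _ G Δ t F hΔ hd hF => ?_⟩
  have hL : ∀ v, Δ + 1 ≤ (range (Δ + k + 1) \ F v).card := by
    intro v
    have h1 := Finset.le_card_sdiff (F v) (range (Δ + k + 1))
    rw [card_range] at h1
    have := hF v
    omega
  rcases Nat.eq_zero_or_pos Δ with h0 | hpos
  · subst h0
    have hne : ∀ v, (range (0 + k + 1) \ F v).Nonempty := fun v =>
      card_pos.1 (by have := hL v; omega)
    choose c hc using hne
    have hadj : ∀ v w, ¬ G.Adj v w := by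
      intro v w h
      have h1 := hd v
      have h2 : w ∈ nb G v := mvt_mem_nb.2 h
      have h3 := card_pos.2 ⟨w, h2⟩
      omega
    refine ⟨c, fun v => by simpa using (mem_sdiff.1 (hc v)).1, fun v w h => (hadj v w h).elim,
      fun v => (mem_sdiff.1 (hc v)).2, fun v => ?_⟩
    calc _ ≤ (nb G v).card := card_filter_le _ _
      _ ≤ 0 := hd v
      _ ≤ K := Nat.zero_le _
  · obtain ⟨c, hc1, hc2, hc3⟩ := hK G Δ t univ (fun v => range (Δ + k + 1) \ F v) hpos hd (by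
      intro x _
      have h1 : ((nb G x ∩ univ).card : ℝ) ≤ Δ := by
        rw [inter_univ]
        exact_mod_cast hd x
      have h2 : 1 / ((Δ0 : ℝ) + 1) * Δ ≤ 1 := by
        rw [one_div, inv_mul_le_iff₀ (by positivity)]
        have : (Δ : ℝ) ≤ Δ0 := by exact_mod_cast hΔ
        linarith
      have h3 : ((Δ : ℝ) + 1) ≤ ((range (Δ + k + 1) \ F x).card : ℝ) := by
        exact_mod_cast hL x
      linarith)
    refine ⟨c, fun v => ?_, fun v w h => hc2 v (mem_univ _) w (mem_univ _) h, fun v => ?_,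
      fun v => ?_⟩
    · simpa using (mem_sdiff.1 (hc1 v (mem_univ _))).1
    · exact (mem_sdiff.1 (hc1 v (mem_univ _))).2
    · simpa using hc3 v

end

/-- large degrees -/
lemma mvt_large (hDEC : Stmt_DEC.{u}) (hCLS : Stmt_CLS.{u}) (hPAL : Stmt_PAL.{u})
    (hDPH : Stmt_DPH.{u}) (hSP1 : Stmt_SP1.{u}) (hSP2 : Stmt_SP2.{u}) (hSP3 : Stmt_SP3.{u})
    (k : ℕ) : ∃ Δ0 K : ℕ,
    ∀ {V : Type u} [Fintype V] (G : SimpleGraph V) (Δ : ℕ)
    (t : V → V → ℕ) (F : V → Finset ℕ), Δ0 ≤ Δ → (∀ v, (nb G v).card ≤ Δ) →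
    (∀ v w, t v w = t w v) → (∀ v, Set.InjOn (t v) (nb G v : Set V)) →
    (∀ v, (F v).card ≤ k) →
    ∃ c : V → ℕ, (∀ v, c v < Δ + (2 * 10 ^ 13 * k + 1)) ∧ (∀ v w, G.Adj v w → c v ≠ c w) ∧
      (∀ v, c v ∉ F v) ∧ ∀ v, ((nb G v).filter (fun x => c x = t v x)).card ≤ K := by
  set h : ℕ := 2 * 10 ^ 13 * k with hh
  obtain ⟨γ1, hγ1, H1⟩ := hSP1
  obtain ⟨γ2, hγ2, H2⟩ := hSP2 γ1 hγ1
  obtain ⟨K3, H3⟩ := hSP3 γ2 hγ2
  obtain ⟨Δ1, H1⟩ := H1 k (h + 1)
  obtain ⟨Δ2, H2⟩ := H2 k (h + 1)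
  obtain ⟨Δ3, H4⟩ := hDPH k h
  refine ⟨max (max Δ1 Δ2) (max Δ3 (10 ^ 26)), 20 + 1 + 1 + K3,
    fun {V} _ G Δ t F hΔ hd hts hti hF => ?_⟩
  have hΔ1 : Δ1 ≤ Δ := le_trans (le_trans (le_max_left _ _) (le_max_left _ _)) hΔ
  have hΔ2 : Δ2 ≤ Δ := le_trans (le_trans (le_max_right _ _) (le_max_left _ _)) hΔ
  have hΔ3 : Δ3 ≤ Δ := le_trans (le_trans (le_max_left _ _) (le_max_right _ _)) hΔ
  have hΔ4 : 10 ^ 26 ≤ Δ := le_trans (le_trans (le_max_right _ _) (le_max_right _ _)) hΔ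
  have hΔ4' : (10 : ℝ) ^ 26 ≤ Δ := by exact_mod_cast hΔ4
  have hΔpos : 1 ≤ Δ := le_trans (by norm_num) hΔ4
  obtain ⟨blk, hdec⟩ := hDEC G Δ (1 / 10 ^ 6) (1 / 10 ^ 13) (by positivity) (by norm_num)
    (by norm_num) (by norm_num) (by
      have : (1 : ℝ) / (1 / 10 ^ 13) ^ 2 = 10 ^ 26 := by norm_num
      rw [this]; exact hΔ4') hd
  have hcls := fun j => hCLS G Δ (bs blk j) hΔpos hd (by
    have h1 := hdec.size j
    have h2 : (0 : ℝ) ≤ Δ := Nat.cast_nonneg _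
    have h3 : ((1 : ℝ) + 1 / 10 ^ 13) * Δ ≤ 3 / 2 * Δ :=
      mul_le_mul_of_nonneg_right (by norm_num) h2
    linarith)
  choose idxj hidx1 hidx2 using hcls
  have hpal := fun j => hPAL (bs blk j) (Δ + 1) k h (Δ / 10 ^ 13) F (by positivity) hF (by
    have h1 := hdec.size j
    have h2 : (0 : ℝ) ≤ Δ := Nat.cast_nonneg _
    have h3 : (0 : ℝ) ≤ k := Nat.cast_nonneg _
    have h4 : ((bs blk j).card : ℝ) ≤ 2 * Δ := by
      have : ((1 : ℝ) + 1 / 10 ^ 13) * Δ ≤ 2 * Δ :=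
        mul_le_mul_of_nonneg_right (by norm_num) h2
      linarith
    have h5 : ((h : ℕ) : ℝ) = 2 * 10 ^ 13 * k := by rw [hh]; push_cast; ring
    rw [h5]
    calc (k : ℝ) * ((bs blk j).card : ℝ) ≤ k * (2 * Δ) := mul_le_mul_of_nonneg_left h4 h3
      _ = (Δ : ℝ) / 10 ^ 13 * (2 * 10 ^ 13 * k) := by ring)
  choose e he1 he2 he3 using hpal
  let idx : V → Fin (Δ + 1) := fun z => idxj ((blk z).getD z) z
  have hidx : ∀ j z, z ∈ bs blk j → idx z = idxj j z := by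
    intro j z hz
    have : blk z = some j := mvt_mem_bs.1 hz
    simp [idx, this]
  let X : DCtx V :=
    { G := G, Δ := Δ, blk := blk, idx := idx, h := h, e := e, deg := hd, dec := hdec,
      cls2 := by
        intro j s
        have : (bs blk j).filter (fun z => idx z = s) =
            (bs blk j).filter (fun z => idxj j z = s) := by
          apply filter_congr
          intro z hz
          rw [hidx j z hz]
        rw [this]
        exact hidx1 j s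
      clsind := by
        intro j z hz z' hz' hne hi
        rw [hidx j z hz, hidx j z' hz'] at hi
        exact hidx2 j z hz z' hz' hne hi
      einj := he1, elt := he2 }
  obtain ⟨c, hc1, hc2, hc3, hc4, hc5⟩ := H4 X t F rfl hΔ3 hts hti hF he3
  have hN : Δ + k + 1 ≤ Δ + 1 + h := by
    have : k ≤ h := by rw [hh]; nlinarith
    omega
  obtain ⟨c1, U1, hU1, hc1e, hP1, hl1, hA1⟩ := H1 G Δ (Δ + 1 + h) t F blk c hΔ1 hN (by omega)
    hd hF hdec ⟨fun x hx => hc1 x (fun hn => hx (mvt_mem_ss.2 hn)),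
      fun x hx => hc3 x (fun hn => hx (mvt_mem_ss.2 hn)),
      fun x y hx hy hxy => hc2 x y (fun hn => hx (mvt_mem_ss.2 hn))
        (fun hn => hy (mvt_mem_ss.2 hn)) hxy⟩ hc5
  obtain ⟨c2, U2, hU2, hc2e, hP2, hl2, hA2⟩ := H2 G Δ (Δ + 1 + h) t F blk c1 U1 hΔ2 hN (by omega)
    hd hF hU1 hP1 hA1
  obtain ⟨c3, hc3e, hP3, hl3⟩ := H3 G Δ (Δ + 1 + h) k t F (Sb G Δ blk) c2 U2 hΔpos hN hd hF
    hP2 hA2
  refine ⟨c3, fun v => ?_, fun v w hvw => hP3.pc v w (notMem_empty _) (notMem_empty _) hvw,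
    fun v => hP3.fb v (notMem_empty _), fun v => ?_⟩
  · have := hP3.lt v (notMem_empty _)
    omega
  · have hsub : (nb G v).filter (fun x => c3 x = t v x) ⊆
        (((dn G blk v).filter (fun x => c x = t v x) ∪
        (nb G v).filter (fun x => x ∈ ss blk ∧ x ∉ U1 ∧ c1 x = t v x)) ∪
        (nb G v).filter (fun x => x ∈ U1 ∧ x ∉ U2 ∧ c2 x = t v x)) ∪
        (nb G v ∩ U2).filter (fun x => c3 x = t v x) := by
      intro x hx
      rw [mem_filter] at hx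
      obtain ⟨hxn, hxt⟩ := hx
      by_cases h2 : x ∈ U2
      · exact mem_union_right _ (mem_filter.2 ⟨mem_inter.2 ⟨hxn, h2⟩, hxt⟩)
      · apply mem_union_left
        have e3 := hc3e x h2
        by_cases h1 : x ∈ U1
        · exact mem_union_right _ (mem_filter.2 ⟨hxn, h1, h2, by rw [← e3]; exact hxt⟩)
        · apply mem_union_left
          have e2 := hc2e x h1
          by_cases h0 : x ∈ ss blk
          · exact mem_union_right _
              (mem_filter.2 ⟨hxn, h0, h1, by rw [← e2, ← e3]; exact hxt⟩)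
          · apply mem_union_left
            have e1 := hc1e x h0
            refine mem_filter.2 ⟨?_, by rw [← e1, ← e2, ← e3]; exact hxt⟩
            unfold dn
            exact mem_filter.2 ⟨hxn, fun hn => h0 (mvt_mem_ss.2 hn)⟩
    refine (card_le_card hsub).trans ?_
    refine (card_union_le _ _).trans ?_
    refine Nat.add_le_add ((card_union_le _ _).trans ?_) (hl3 v)
    refine Nat.add_le_add ((card_union_le _ _).trans ?_) (hl2 v)
    exact Nat.add_le_add (hc4 v) (hl1 v)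

theorem stmt_MVT (hDEC : Stmt_DEC.{u}) (hCLS : Stmt_CLS.{u}) (hPAL : Stmt_PAL.{u})
    (hDPH : Stmt_DPH.{u}) (hSP1 : Stmt_SP1.{u}) (hSP2 : Stmt_SP2.{u}) (hSP3 : Stmt_SP3.{u})
    (hCNT : Stmt_CNT.{u}) : Stmt_MVT.{u} := by
  intro k
  obtain ⟨Δ0, K1, H1⟩ := mvt_large hDEC hCLS hPAL hDPH hSP1 hSP2 hSP3 k
  obtain ⟨K2, H2⟩ := mvt_small hCNT Δ0 k
  refine ⟨2 * 10 ^ 13 * k + 1, max K1 K2, fun {V} _ G Δ t F hd hts hti hF => ?_⟩
  rcases Nat.le_total Δ0 Δ with hc | hc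
  · obtain ⟨c, h1, h2, h3, h4⟩ := H1 G Δ t F hc hd hts hti hF
    exact ⟨c, h1, h2, h3, fun v => (h4 v).trans (le_max_left _ _)⟩
  · obtain ⟨c, h1, h2, h3, h4⟩ := H2 G Δ t F hc hd hF
    refine ⟨c, fun v => ?_, h2, h3, fun v => (h4 v).trans (le_max_right _ _)⟩
    have := h1 v
    have h5 : k ≤ 2 * 10 ^ 13 * k := by nlinarith
    omega

end Pool.Agent.Work.MP_db9399_all
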